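import Pool.Agent.Q138.TripleCount

set_option autoImplicit false

/-!
# MP_f4a429_co: the maximal minimum weight of a triple in non-synchronizing automata

`ρ*(3, n) ≤ (31 / 64) n²` for all `n ≥ 152`; in particular `ρ*(3, n)` is not `(1/2 + o(1)) n²`.
-/

namespace Pool.Agent.Results.MP_f4a429_co.TripleWeightBound

open Q138.Triple Filter Topology

/-- The word `w` sends all states of `S` to one common state. -/
def Merges {n : ℕ} (w : List (Fin n → Fin n)) (S : Finset (Fin n)) : Prop :=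
  ∃ q, ∀ x ∈ S, act w x = q

/-- The weight `t(S)` of a set `S` of states in the automaton `Ω`: the least length of a word
that sends `S` to a single state, and `⊤` if there is no such word. -/
noncomputable def weight {n : ℕ} (Ω : Set (Fin n → Fin n)) (S : Finset (Fin n)) : ℕ∞ :=
  ⨅ w : {w : List (Fin n → Fin n) // IsWord Ω w ∧ Merges w S}, (w.1.length : ℕ∞)

/-- `m(3, Ω)`: the least weight of a 3-set. -/
noncomputable def m3 {n : ℕ} (Ω : Set (Fin n → Fin n)) : ℕ∞ :=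
  ⨅ S : {S : Finset (Fin n) // S.card = 3}, weight Ω S.1

/-- `ρ*(3, n)`: the maximum of `m(3, Ω)` over all automata `Ω` on `n` states that have at least
one synchronizable 3-set. -/
noncomputable def rhoStar (n : ℕ) : ℕ∞ :=
  ⨆ Ω : {Ω : Set (Fin n → Fin n) // ∃ S : Finset (Fin n), S.card = 3 ∧ weight Ω S ≠ ⊤}, m3 Ω.1

theorem m3_le {n : ℕ} (hn : 152 ≤ n) (Ω : Set (Fin n → Fin n))
    (h : ∃ S : Finset (Fin n), S.card = 3 ∧ weight Ω S ≠ ⊤) : 64 * m3 Ω ≤ 31 * (n : ℕ∞) ^ 2 := by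
  classical
  have hex : ∃ M : ℕ, ∃ S : Finset (Fin n), S.card = 3 ∧ ∃ w, IsWord Ω w ∧ w.length = M ∧
      Merges w S := by
    obtain ⟨S, hS, hw⟩ := h
    have hne : Nonempty {w : List (Fin n → Fin n) // IsWord Ω w ∧ Merges w S} := by
      by_contra hcon
      rw [not_nonempty_iff] at hcon
      apply hw
      unfold weight
      rw [iInf_of_isEmpty, sInf_empty]
    obtain ⟨w, h1, h2⟩ := hne
    exact ⟨w.length, S, hS, w, h1, rfl, h2⟩
  obtain ⟨S, hS, w, hw, hl, hm⟩ := Nat.find_spec hex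
  set M := Nat.find hex with hM
  obtain ⟨x, y, z, hxy, hxz, hyz, hSe⟩ := Finset.card_eq_three.1 hS
  obtain ⟨q, hq⟩ := hm
  have ax : act w x = q := hq x (by rw [hSe]; simp)
  have ay : act w y = q := hq y (by rw [hSe]; simp)
  have az : act w z = q := hq z (by rw [hSe]; simp)
  have hM0 : M ≠ 0 := by
    intro h0
    rw [h0] at hl
    have : w = [] := List.length_eq_zero_iff.1 hl
    subst this
    exact hxy (ax.trans ay.symm)
  obtain ⟨m, hm⟩ := Nat.exists_eq_succ_of_ne_zero hM0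
  have hNT : NoTriple Ω m := by
    intro a b c hab hac hbc u hu hul h1 h2
    have hlt : u.length < Nat.find hex := by
      rw [← hM, hm]; omega
    apply Nat.find_min hex hlt
    refine ⟨{a, b, c}, Finset.card_eq_three.2 ⟨a, b, c, hab, hac, hbc, rfl⟩, u, hu, rfl,
      act u a, ?_⟩
    intro v hv
    rw [Finset.mem_insert, Finset.mem_insert, Finset.mem_singleton] at hv
    rcases hv with rfl | rfl | rfl
    · rfl
    · exact h1.symm
    · exact h2.symm
  have hb := main_bound (V := Fin n) (Ω := Ω) (m := m) (by rw [Fintype.card_fin]; exact hn) hNT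
    ⟨x, y, z, hxy, hxz, hyz, w, hw, by rw [hl, hm], ax.trans ay.symm, ax.trans az.symm⟩
  rw [Fintype.card_fin] at hb
  have h1 : m3 Ω ≤ ((m + 1 : ℕ) : ℕ∞) := by
    have h2 : m3 Ω ≤ weight Ω S := iInf_le (fun S : {S : Finset (Fin n) // S.card = 3} =>
      weight Ω S.1) ⟨S, hS⟩
    have h3 : weight Ω S ≤ (w.length : ℕ∞) :=
      iInf_le (fun w : {w : List (Fin n → Fin n) // IsWord Ω w ∧ Merges w S} =>
        (w.1.length : ℕ∞)) ⟨w, hw, q, hq⟩
    rw [hl, hm] at h3
    exact h2.trans h3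
  calc 64 * m3 Ω ≤ 64 * ((m + 1 : ℕ) : ℕ∞) := mul_le_mul_right h1 64
    _ = ((64 * (m + 1) : ℕ) : ℕ∞) := by push_cast; ring
    _ ≤ ((31 * n ^ 2 : ℕ) : ℕ∞) := by exact_mod_cast hb
    _ = 31 * (n : ℕ∞) ^ 2 := by push_cast; ring

/-- For all `n ≥ 152` one has `ρ*(3, n) ≤ (31 / 64) n²`; hence `ρ*(3, n) / n²` does not tend to
`1 / 2`. -/
theorem result :
    (∀ n : ℕ, 152 ≤ n → 64 * rhoStar n ≤ 31 * (n : ℕ∞) ^ 2) ∧
      ¬ Tendsto (fun n : ℕ => ((rhoStar n).toNat : ℝ) / (n : ℝ) ^ 2) atTop (𝓝 (1 / 2)) := by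
  have h1 : ∀ n : ℕ, 152 ≤ n → 64 * rhoStar n ≤ 31 * (n : ℕ∞) ^ 2 := by
    intro n hn
    unfold rhoStar
    rw [ENat.mul_iSup]
    exact iSup_le fun Ω => m3_le hn Ω.1 Ω.2
  refine ⟨h1, fun ht => ?_⟩
  have h2 : ∀ᶠ n : ℕ in atTop, ((rhoStar n).toNat : ℝ) / (n : ℝ) ^ 2 ≤ 31 / 64 := by
    filter_upwards [eventually_ge_atTop 152] with n hn
    have h3 := h1 n hn
    have hfin : rhoStar n ≠ ⊤ := by
      intro htop
      rw [htop, ENat.mul_top (by norm_num)] at h3
      have : (31 * (n : ℕ∞) ^ 2) = ((31 * n ^ 2 : ℕ) : ℕ∞) := by push_cast; ring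
      rw [this] at h3
      exact ENat.natCast_ne_top _ (top_le_iff.1 h3)
    obtain ⟨r, hr⟩ := ENat.ne_top_iff_exists.1 hfin
    rw [← hr] at h3 ⊢
    have h4 : 64 * r ≤ 31 * n ^ 2 := by exact_mod_cast h3
    have h5 : (64 : ℝ) * r ≤ 31 * (n : ℝ) ^ 2 := by exact_mod_cast h4
    have hn0 : (0 : ℝ) < (n : ℝ) ^ 2 := by
      have : (0 : ℝ) < n := by exact_mod_cast (by omega : 0 < n)
      positivity
    rw [div_le_iff₀ hn0]
    simp only [ENat.toNat_natCast]
    linarith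
  have h3 := le_of_tendsto ht h2
  norm_num at h3

end Pool.Agent.Results.MP_f4a429_co.TripleWeightBound
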